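import Pool.Agent.R352.E.Mat

/-!
# The matroid of algebraic independence of real numbers over a field
-/

set_option autoImplicit false

open Set

namespace Pool.Agent.R347.EM

open Pool.Agent.R352.E

variable (L : IntermediateField ℚ ℝ)

/-- the matroid of algebraic independence over the field -/
noncomputable abbrev ML : Matroid ℝ := AlgebraicIndependent.matroid L ℝ

variable {L}

lemma mem_clL_iff {S : Set ℝ} {x : ℝ} : x ∈ (ML L).closure S ↔ IsAlgebraic (Algebra.adjoin L S) x := by
  rw [AlgebraicIndependent.matroid_closure_eq]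
  exact Iff.rfl

open scoped IntermediateField.algebraAdjoinAdjoin in
lemma mem_clL_iff' {S : Set ℝ} {x : ℝ} : x ∈ (ML L).closure S ↔ IsAlgebraic (IntermediateField.adjoin L S) x := by
  rw [mem_clL_iff]
  exact IsFractionRing.isAlgebraic_iff (Algebra.adjoin L S) (IntermediateField.adjoin L S) ℝ

/-- the closure over the field and over the rationals -/
lemma mem_cl {S : Set ℝ} {x : ℝ} : x ∈ clF ((L : Set ℝ) ∪ S) ↔ IsAlgebraic (IntermediateField.adjoin L S) x := by
  rw [mem_clF, ← IntermediateField.restrictScalars_adjoin]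
  exact Iff.rfl

lemma mem_cl' {S : Set ℝ} {x : ℝ} : x ∈ clF ((L : Set ℝ) ∪ S) ↔ x ∈ (ML L).closure S :=
  mem_cl.trans mem_clL_iff'.symm

lemma card_leL {ι : Type*} [Fintype ι] {x : ι → ℝ} (hx : AlgebraicIndependent L x) {T : Set ℝ}
    (h : ∀ i, x i ∈ clF ((L : Set ℝ) ∪ T)) : (Fintype.card ι : ℕ∞) ≤ (ML L).eRk T := by
  have h1 : (ML L).Indep (range x) := hx.to_subtype_range
  have h2 : range x ⊆ (ML L).closure T := by
    rintro _ ⟨i, rfl⟩
    exact mem_cl'.1 (h i)
  calc (Fintype.card ι : ℕ∞) = (range x).encard := by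
        rw [← image_univ, hx.injective.injOn.encard_image, encard_univ, ENat.card_eq_coe_fintype_card]
    _ ≤ (ML L).eRk ((ML L).closure T) := h1.encard_le_eRk_of_subset h2
    _ = (ML L).eRk T := Matroid.eRk_closure_eq (ML L) T

/-- as many elements spanning independent elements are independent -/
lemma indep_of_spanL {ι κ : Type*} [Fintype ι] [Fintype κ] {x : ι → ℝ} (hx : AlgebraicIndependent L x) {y : κ → ℝ}
    (h : ∀ i, x i ∈ clF ((L : Set ℝ) ∪ range y)) (hc : Fintype.card κ ≤ Fintype.card ι) :
    AlgebraicIndependent L y := by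
  have h1 := card_leL hx h
  have h2 : (range y).encard ≤ Fintype.card κ := by
    rw [← image_univ, ← ENat.card_eq_coe_fintype_card, ← encard_univ]
    exact encard_image_le _ _
  have h3 : (Fintype.card κ : ℕ∞) ≤ (range y).encard :=
    (by exact_mod_cast hc : (Fintype.card κ : ℕ∞) ≤ Fintype.card ι).trans (h1.trans (Matroid.eRk_le_encard _ _))
  have hfin : (range y).Finite := finite_range y
  have h4 : (ML L).Indep (range y) := by
    refine ((ML L).isRkFinite_of_finite hfin).indep_of_encard_le_eRk ?_
    exact h2.trans ((by exact_mod_cast hc : (Fintype.card κ : ℕ∞) ≤ Fintype.card ι).trans h1)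
  have hinj : Function.Injective y := by
    rw [← injOn_univ]
    refine Finite.injOn_of_encard_image_eq finite_univ ?_
    rw [image_univ]
    refine le_antisymm (h2.trans ?_) ?_
    · rw [encard_univ, ENat.card_eq_coe_fintype_card]
    · rw [encard_univ, ENat.card_eq_coe_fintype_card]; exact h3
  exact (algebraicIndependent_subtype_range hinj).1 h4

/-- a lower bound for the transcendence degree of a generated field -/
lemma trdeg_geL {ι : Type*} [Fintype ι] {x : ι → ℝ} (hx : AlgebraicIndependent L x) {A : Set ℝ}
    (h : ∀ i, x i ∈ clF ((L : Set ℝ) ∪ A)) :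
    (Fintype.card ι : Cardinal) ≤ Algebra.trdeg L (IntermediateField.adjoin L A) := by
  obtain ⟨I, hI⟩ := (ML L).exists_isBasis A (subset_univ _)
  have h1 := card_leL hx h
  rw [← hI.encard_eq_eRk] at h1
  obtain ⟨t, htI, htc⟩ := exists_subset_encard_eq h1
  have hfin : t.Finite := by
    rw [← encard_lt_top_iff, htc]
    exact ENat.natCast_lt_top _
  have hind : AlgebraicIndependent L (fun i : t => (i : ℝ)) := hI.indep.subset htI
  have htA : ∀ i : t, (i : ℝ) ∈ IntermediateField.adjoin L A := fun i =>
    IntermediateField.subset_adjoin L A (hI.subset (htI i.2))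
  let f : t → IntermediateField.adjoin L A := fun i => ⟨i, htA i⟩
  have hf : AlgebraicIndependent L f := by
    have h1 : Function.Injective (IntermediateField.adjoin L A).val := (IntermediateField.adjoin L A).val.injective
    exact ((IntermediateField.adjoin L A).val.algebraicIndependent_iff h1).1 hind
  have := hfin.fintype
  have h2 := hf.cardinalMk_le_trdeg
  refine le_trans (le_of_eq ?_) h2
  have h3 : ((Fintype.card ι : ℕ) : ℕ∞) = ((Fintype.card t : ℕ) : ℕ∞) := by
    rw [← htc, ← ENat.card_eq_coe_fintype_card, Set.encard]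
  have h4 : Fintype.card ι = Fintype.card t := by exact_mod_cast h3
  rw [Cardinal.mk_fintype, h4]

end Pool.Agent.R347.EM
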