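import Pool.Agent.R347.EM.Meas
import Pool.Agent.R347.LC.Main
import Pool.Agent.R352.E.Val

/-!
# Values of E-functions over fields of numbers with good rational approximations
-/

set_option autoImplicit false
set_option linter.unusedSectionVars false
set_option linter.unusedSimpArgs false

open PowerSeries Finset.HasAntidiagonal

namespace Pool.Agent.R347.EM

open Pool.Agent.Y113 Pool.Agent.R352.E Pool.Agent.R347.LC

section

variable {p : ℕ → ℕ} (hp : ∀ k, 2 ≤ p k) (L : IntermediateField ℚ ℝ) (hL : ∀ x ∈ L, RA p x)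

include hp hL

/-- the values are linearly independent over the field -/
theorem E_linL {N q : ℕ} {C : ℝ} {y : Fin N → ℚ⟦X⟧} (hE : ESys q C y) (i₀ : Fin N) (h1 : y i₀ = 1)
    (hLI : LinearIndependent (Polynomial ℚ) y) : LinearIndependent L (fun i => ev 1 (y i)) := by
  rw [Fintype.linearIndependent_iff]
  intro f hf i
  by_contra hi
  obtain ⟨c, M, hc, h⟩ := E_meas hE i₀ h1 hLI
  refine noZero hp (fun i => ev 1 (y i)) i ⟨c, M, hc, fun m H hm hH hmH => h m H ?_ hH hmH⟩
    (fun i => (f i : ℝ)) (fun i => hL _ (f i).2) (fun h0 => hi (by exact_mod_cast h0)) ?_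
  · intro h0
    exact hm (by rw [h0]; rfl)
  · rw [← hf]
    rfl

variable {σ : Type} [Fintype σ] [LinearOrder σ] {t : Tw σ} {q : ℕ} {f : σ → ℚ⟦X⟧}

/-- linear independence of the values at `1` of the monomials -/
theorem val_LIL (R : Real' t q f) {M J₀ : ℕ} (hM : ∀ v, v < t.w → t.m v ≤ M) (hM1 : 1 ≤ M) [Fintype (Idx t M J₀)] :
    LinearIndependent L (fun s : Idx t M J₀ => ev 1 (mon f s.1)) := by
  classical
  set N := Fintype.card (Idx t M J₀) with hN
  let e : Fin N ≃ Idx t M J₀ := (Fintype.equivFin _).symm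
  set y : Fin N → ℚ⟦X⟧ := fun i => mon f (e i).1 with hy
  obtain ⟨C, hC, h1, h2⟩ := EF.common (y := y) (fun i => EF_mon R (e i).2.1)
  have hSys : ESys q C y :=
    { one_le := hC
      hq := R.hq
      size := h1
      den := h2
      der := by
        have h3 := fun i => deriv_Sp R hM hM1 (e i)
        choose B hB using h3
        refine ⟨fun i j => B i (e j), fun i => ?_⟩
        rw [hy, hB i, ← Equiv.sum_comp e] }
  have h0 : e (e.symm ⟨0, by simp⟩) = (⟨0, by simp⟩ : Idx t M J₀) := e.apply_symm_apply _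
  have h3 := E_linL hp L hL hSys (e.symm ⟨0, by simp⟩) (by
    rw [hy]
    simp only [h0]
    rw [mon_eq]; simp) ((mon_LI R).comp e e.injective)
  have h4 := h3.comp e.symm e.symm.injective
  convert h4 using 1
  funext s
  simp only [Function.comp_apply, hy, Equiv.apply_symm_apply]

/-- algebraic independence of the values at `1` -/
theorem val_algL (R : Real' t q f) : AlgebraicIndependent L (fun i : {i : σ // i ≠ t.z} => ev 1 (f i.1)) := by
  classical
  obtain ⟨M, hM1, hM⟩ : ∃ M : ℕ, 1 ≤ M ∧ ∀ v, v < t.w → t.m v ≤ M := by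
    refine ⟨1 + ∑ v, t.m v, by omega, fun v _ => ?_⟩
    have := Finset.single_le_sum (f := fun v => t.m v) (fun _ _ => Nat.zero_le _) (Finset.mem_univ v)
    omega
  rw [algebraicIndependent_iff]
  intro p hp0
  set p' : MvPolynomial σ L := MvPolynomial.rename Subtype.val p with hp'
  have hinj : Function.Injective (MvPolynomial.rename (R := L) (Subtype.val : {i : σ // i ≠ t.z} → σ)) :=
    MvPolynomial.rename_injective _ Subtype.val_injective
  suffices h : p' = 0 by
    apply hinj
    rw [← hp', h, map_zero]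
  have hval : MvPolynomial.aeval (fun i : σ => ev 1 (f i)) p' = 0 := by
    rw [hp', MvPolynomial.aeval_rename, ← hp0]
    rfl
  have hz : ∀ s ∈ p'.support, s t.z = 0 := by
    intro s hs
    have h1 := MvPolynomial.coeff_rename_ne_zero _ _ _ (MvPolynomial.mem_support_iff.1 hs)
    obtain ⟨u, hu, _⟩ := h1
    rw [← hu]
    apply Finsupp.mapDomain_of_notMem_range
    rintro ⟨i, hi⟩
    exact i.2 hi
  set J₀ : ℕ := ∑ s ∈ p'.support, (s t.w + M * ∑ v ∈ t.V, s v) with hJ₀
  haveI : Finite (Idx t M J₀) := Idx_finite t hM1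
  letI : Fintype (Idx t M J₀) := Fintype.ofFinite _
  have hmem : ∀ s ∈ p'.support, s t.z = 0 ∧ s t.w + M * ∑ v ∈ t.V, s v ≤ J₀ := by
    intro s hs
    refine ⟨hz s hs, ?_⟩
    rw [hJ₀]
    exact Finset.single_le_sum (f := fun s : σ →₀ ℕ => s t.w + M * ∑ v ∈ t.V, s v) (fun _ _ => Nat.zero_le _) hs
  have hLI := Fintype.linearIndependent_iff.1 (val_LIL hp L hL R hM hM1 (J₀ := J₀))
    (fun s => MvPolynomial.coeff s.1 p') (by
      have h1 : ∑ s : Idx t M J₀, MvPolynomial.coeff s.1 p' • ev 1 (mon f s.1) =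
          ∑ s ∈ (Finset.univ : Finset (Idx t M J₀)).map ⟨Subtype.val, Subtype.val_injective⟩,
            MvPolynomial.coeff s p' • ev 1 (mon f s) := by
        rw [Finset.sum_map]; rfl
      rw [h1, ← hval]
      have h2 : p'.support ⊆ (Finset.univ : Finset (Idx t M J₀)).map ⟨Subtype.val, Subtype.val_injective⟩ := by
        intro s hs
        rw [Finset.mem_map]
        exact ⟨⟨s, hmem s hs⟩, Finset.mem_univ _, rfl⟩
      rw [← Finset.sum_subset h2 (fun s _ hs => by rw [MvPolynomial.notMem_support_iff.1 hs, zero_smul])]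
      conv_rhs => rw [MvPolynomial.as_sum p', map_sum]
      refine Finset.sum_congr rfl fun s _ => ?_
      rw [MvPolynomial.aeval_monomial, ev_mon R, Finsupp.prod_fintype _ _ (fun i => pow_zero _), Algebra.smul_def])
  ext s
  rw [MvPolynomial.coeff_zero]
  by_cases hs : s ∈ p'.support
  · exact congrArg Subtype.val (hLI ⟨s, hmem s hs⟩)
  · exact congrArg Subtype.val (MvPolynomial.notMem_support_iff.1 hs)

/-- algebraic independence of `exp (-1/q)` and the numbers `E_l (m_i / q)`, `1 ≤ l ≤ J` -/
theorem EE_algL (J k : ℕ) (mm : Fin k → ℕ) (hinj : Function.Injective mm) (hpos : ∀ i, 1 ≤ mm i) {q : ℕ} (hq : 1 ≤ q) :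
    AlgebraicIndependent L (fun o : Option (Fin J × Fin k) =>
      o.elim (Real.exp (-1 / q)) (fun p => EE (p.1 + 1) ((mm p.2 : ℝ) / q))) := by
  have h1 := val_algL hp L hL (real_tw J k mm hinj hpos hq)
  -- reindexing
  let g : Option (Fin J × Fin k) → {i : Sg J k // i ≠ (tw J k mm hinj hpos).z} := fun o =>
    match o with
    | none => ⟨toLex (Sum.inr 0), fun h => by
        have := Sum.inr_injective (toLex.injective h)
        exact absurd this (by decide)⟩
    | some p => ⟨toLex (Sum.inl (toLex (Fin.rev p.1, p.2))), fun h => Sum.inl_ne_inr (toLex.injective h)⟩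
  have hg : Function.Injective g := by
    intro o o' h
    rcases o with _ | p <;> rcases o' with _ | p'
    · rfl
    · exact absurd (toLex.injective (congrArg Subtype.val h)) Sum.inr_ne_inl
    · exact absurd (toLex.injective (congrArg Subtype.val h)) Sum.inl_ne_inr
    · have h2 := toLex.injective (Sum.inl_injective (toLex.injective (congrArg Subtype.val h)))
      have h3 := congrArg Prod.fst h2
      have h4 := congrArg Prod.snd h2
      simp only at h3 h4
      have h5 := Fin.rev_injective h3
      rw [Prod.ext h5 h4]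
  have h2 := h1.comp g hg
  convert h2 using 1
  funext o
  rcases o with _ | p
  · show Real.exp (-1 / q) = ev 1 (wS q)
    rw [ev_wS]
  · show EE (p.1 + 1) ((mm p.2 : ℝ) / q) = ev 1 (ES (J - (Fin.rev p.1 : Fin J)) ((mm p.2 : ℚ) / q))
    rw [ev_ES _ _ _ hq]
    congr 1
    rw [Fin.val_rev]
    have := p.1.2
    omega

end

end Pool.Agent.R347.EM
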