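import Pool.Agent.R352.E.Fin

/-!
# A measure of linear independence for values of E-functions with rational coefficients
-/

set_option autoImplicit false

open PowerSeries Finset.HasAntidiagonal

namespace Pool.Agent.R347.EM

open Pool.Agent.Y113 Pool.Agent.R352.E

lemma det_ineq' {N : ℕ} (M : Matrix (Fin N) (Fin N) ℤ) (hM : M.det ≠ 0) (r₀ i₀ : Fin N) (Y : Fin N → ℝ) (hY : Y i₀ = 1)
    (ε : ℝ) (h0 : |∑ j, (M r₀ j : ℝ) * Y j| ≤ ε) (A X L : ℝ) (hA : 0 ≤ A) (hX : 1 ≤ X) (hL : 0 ≤ L) (hMA : ∀ j, |(M r₀ j : ℝ)| ≤ A)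
    (hMX : ∀ r, r ≠ r₀ → ∀ j, |(M r j : ℝ)| ≤ X) (hML : ∀ r, r ≠ r₀ → |∑ j, (M r j : ℝ) * Y j| ≤ L) :
    1 ≤ N * (N.factorial * (A * X ^ (N - 2)) * L) + N.factorial * X ^ (N - 1) * ε := by
  classical
  set R : Matrix (Fin N) (Fin N) ℝ := M.map (Int.cast : ℤ → ℝ) with hR
  have hdet : R.det = ((M.det : ℤ) : ℝ) := (Int.cast_det (R := ℝ) M).symm
  have h1 : (1 : ℝ) ≤ |R.det| := by
    rw [hdet]
    exact_mod_cast Int.one_le_abs hM
  have h2 : R.det * Y i₀ = ∑ r, R.adjugate i₀ r * (R.mulVec Y) r := by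
    have h3 : R.adjugate.mulVec (R.mulVec Y) = R.det • Y := by
      rw [Matrix.mulVec_mulVec, Matrix.adjugate_mul, Matrix.smul_mulVec, Matrix.one_mulVec]
    have := congrFun h3 i₀
    rw [Pi.smul_apply, smul_eq_mul] at this
    rw [← this]
    rfl
  rw [hY, mul_one] at h2
  rw [h2] at h1
  refine h1.trans ((Finset.abs_sum_le_sum_abs _ _).trans ?_)
  have h3 : ∀ r : Fin N, r ≠ r₀ → |R.adjugate i₀ r * (R.mulVec Y) r| ≤ N.factorial * (A * X ^ (N - 2)) * L := by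
    intro r hr
    have hmv : (R.mulVec Y) r = ∑ j, (M r j : ℝ) * Y j := rfl
    rw [abs_mul, hmv]
    refine mul_le_mul ?_ (hML r hr) (abs_nonneg _) (by positivity)
    rw [Matrix.adjugate_apply]
    refine (det_bound _ (fun s => if s = r then 1 else if s = r₀ then A else X) ?_).trans (le_of_eq ?_)
    · intro s j
      by_cases hs : s = r
      · rw [if_pos hs, hs, Matrix.updateRow_self]
        by_cases hj : j = i₀
        · rw [hj, Pi.single_eq_same, abs_one]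
        · rw [Pi.single_eq_of_ne hj, abs_zero]; exact zero_le_one
      · rw [if_neg hs, Matrix.updateRow_ne hs]
        by_cases hs2 : s = r₀
        · rw [if_pos hs2, hs2]; exact hMA j
        · rw [if_neg hs2]; exact hMX s hs2 j
    · congr 1
      rw [← Finset.mul_prod_erase Finset.univ _ (Finset.mem_univ r), if_pos rfl, one_mul]
      rw [← Finset.mul_prod_erase (Finset.univ.erase r) _ (Finset.mem_erase.2 ⟨Ne.symm hr, Finset.mem_univ r₀⟩),
        if_neg (Ne.symm hr), if_pos rfl]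
      congr 1
      rw [Finset.prod_congr rfl (g := fun _ => X) (fun s hs => by
        rw [Finset.mem_erase, Finset.mem_erase] at hs
        rw [if_neg hs.2.1, if_neg hs.1])]
      rw [Finset.prod_const, Finset.card_erase_of_mem (Finset.mem_erase.2 ⟨Ne.symm hr, Finset.mem_univ r₀⟩),
        Finset.card_erase_of_mem (Finset.mem_univ r), Finset.card_univ, Fintype.card_fin]
      congr 1
  have h4 : |R.adjugate i₀ r₀ * (R.mulVec Y) r₀| ≤ N.factorial * X ^ (N - 1) * ε := by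
    have hmv : (R.mulVec Y) r₀ = ∑ j, (M r₀ j : ℝ) * Y j := rfl
    rw [abs_mul, hmv]
    refine mul_le_mul ?_ h0 (abs_nonneg _) (by positivity)
    rw [Matrix.adjugate_apply]
    refine (det_bound _ (fun s => if s = r₀ then 1 else X) ?_).trans (le_of_eq ?_)
    · intro s j
      by_cases hs : s = r₀
      · rw [if_pos hs, hs, Matrix.updateRow_self]
        by_cases hj : j = i₀
        · rw [hj, Pi.single_eq_same, abs_one]
        · rw [Pi.single_eq_of_ne hj, abs_zero]; exact zero_le_one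
      · rw [if_neg hs, Matrix.updateRow_ne hs]
        exact hMX s hs j
    · congr 1
      rw [← Finset.mul_prod_erase Finset.univ _ (Finset.mem_univ r₀), if_pos rfl, one_mul]
      rw [Finset.prod_congr rfl (g := fun _ => X) (fun s hs => by
        rw [Finset.mem_erase] at hs
        rw [if_neg hs.1])]
      rw [Finset.prod_const, Finset.card_erase_of_mem (Finset.mem_univ r₀), Finset.card_univ, Fintype.card_fin]
  have hX0 : 0 ≤ X := by linarith
  rw [← Finset.sum_erase_add Finset.univ _ (Finset.mem_univ r₀)]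
  refine add_le_add ?_ h4
  calc ∑ r ∈ Finset.univ.erase r₀, |R.adjugate i₀ r * (R.mulVec Y) r|
      ≤ ∑ _r ∈ Finset.univ.erase r₀, (N.factorial * (A * X ^ (N - 2)) * L : ℝ) :=
        Finset.sum_le_sum fun r hr => h3 r (Finset.ne_of_mem_erase hr)
    _ ≤ ∑ _r : Fin N, (N.factorial * (A * X ^ (N - 2)) * L : ℝ) :=
        Finset.sum_le_sum_of_subset_of_nonneg (Finset.erase_subset _ _) (fun _ _ _ => by positivity)
    _ = _ := by simp

lemma core' {N q : ℕ} {C : ℝ} {y : Fin N → ℚ⟦X⟧} (hE : ESys q C y) (i₀ : Fin N) (h1 : y i₀ = 1)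
    {B : Fin N → Fin N → Polynomial ℤ} (hB : ∀ i, (TQ q : ℚ⟦X⟧) * d⁄dX ℚ (y i) = ∑ j, ps (B i j) * y j)
    {b : ℕ} {β : ℝ} (hb : 1 ≤ b) (hBb : ∀ i j, (B i j).natDegree ≤ b) (hβ : ∀ j, ∑ i, l1 (B i j) ≤ β) (hβ0 : 0 ≤ β)
    {c₁ : ℕ}
    (hrank : ∀ (n m K : ℕ) (P : Fin N → Polynomial ℚ), P ≠ 0 → (∀ i, (P i).natDegree ≤ n) →
      (∀ l < m, coeff l (∑ i, (P i : ℚ⟦X⟧) * y i) = 0) → (N - 1) * n + c₁ < m → N * n + c₁ < m + K →
      ∀ v : Fin N → ℚ, (∀ k ≤ K, ∑ j, ((nab (TQ q) (fun i j => (B i j).map (Int.castRingHom ℚ)))^[k] P j).eval 1 * v j = 0)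
        → v = 0)
    (a : Fin N → ℤ) (ha0 : a ≠ 0) (ε : ℝ) (ha : |∑ i, (a i : ℝ) * ev 1 (y i)| ≤ ε) (A : ℝ) (hA : ∀ i, |(a i : ℝ)| ≤ A)
    (L ν n m₀ K : ℕ) (hL : 2 ≤ L) (hν : c₁ < ν) (hn : n = L * ν) (hm₀ : m₀ + ν = N * n) (hK : K = 2 * ν)
    (A₀ : ℝ) (hA₀ : A₀ = ((N * (n + 1) : ℕ) * (2 * C) ^ (2 * m₀ + 1)) ^ (N * L)) :
    1 ≤ (N : ℝ) * (N.factorial * (A *
      (((n + K * b : ℕ) + 1) * ((q * (n + K * b : ℕ) + β) ^ K * (n.factorial * A₀))) ^ (N - 2)) *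
      (n.factorial * (N * A₀ * C) * (q : ℝ) ^ K * K.factorial *
        ((2 * C * Real.exp 1) ^ m₀ / m₀.factorial * Real.exp (2 * C * Real.exp 1)))) +
      N.factorial * (((n + K * b : ℕ) + 1) * ((q * (n + K * b : ℕ) + β) ^ K * (n.factorial * A₀))) ^ (N - 1) * ε := by
  have hC := hE.one_le
  have hNpos : 0 < N := i₀.pos
  have hνpos : 0 < ν := by omega
  have hnpos : 0 < n := by rw [hn]; exact Nat.mul_pos (by omega) hνpos
  have hNn : L * ν ≤ N * n := by rw [← hn]; exact Nat.le_mul_of_pos_left n hNpos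
  have hm₀pos : 0 < m₀ := by
    have : 2 * ν ≤ L * ν := Nat.mul_le_mul_right _ hL
    omega
  have hNn1 : N * (n + 1) = N * n + N := by ring
  have hmn : m₀ < N * (n + 1) := by omega
  have he : m₀ ≤ (N * L) * (N * (n + 1) - m₀) := by
    have h2 : N * (n + 1) - m₀ = ν + N := by omega
    rw [h2]
    calc m₀ ≤ N * n := by omega
      _ = N * L * ν := by rw [hn]; ring
      _ ≤ N * L * (ν + N) := Nat.mul_le_mul_left _ (by omega)
  obtain ⟨P, hP0, hPn, hPc, hPv, hPs⟩ := siegel_E hC hE.size hE.den n m₀ (N * L) hm₀pos hmn he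
  rw [← hA₀] at hPc hPs
  have hA₀0 : 0 ≤ A₀ := by rw [hA₀]; positivity
  have hPQ0 : (fun i => (P i).map (Int.castRingHom ℚ)) ≠ 0 := by
    intro h
    apply hP0
    funext i
    have h2 := congrFun h i
    simp only [Pi.zero_apply] at h2
    exact (Polynomial.map_eq_zero_iff (Int.cast_injective)).1 h2
  have hsp := hrank n m₀ K (fun i => (P i).map (Int.castRingHom ℚ)) hPQ0
    (fun i => (Polynomial.natDegree_map_le).trans (hPn i)) hPv
    (by
      have h2 : (N - 1) * n + n = N * n := by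
        have h3 : (N - 1 + 1) * n = N * n := by rw [Nat.sub_add_cancel hNpos]
        rw [← h3]; ring
      have h4 : 2 * ν ≤ n := by rw [hn]; exact Nat.mul_le_mul_right _ hL
      omega)
    (by omega)
  -- the integer vectors
  let z : Fin (K + 1) → Fin N → ℤ := fun k j => ((nabZ q B)^[(k : ℕ)] P j).eval 1
  have hzQ : ∀ (k : ℕ) (j : Fin N), ((((nabZ q B)^[k] P j).eval 1 : ℤ) : ℚ) =
      ((nab (TQ q) (fun i j => (B i j).map (Int.castRingHom ℚ)))^[k] (fun i => (P i).map (Int.castRingHom ℚ)) j).eval 1 := by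
    intro k j
    rw [← nabZ_map, Polynomial.eval_map, Polynomial.eval₂_at_one]
    simp
  have hzorth : ∀ v : Fin N → ℚ, (∀ k, ∑ j, (z k j : ℚ) * v j = 0) → v = 0 := by
    intro v hv
    apply hsp v
    intro k hk
    have h2 := hv ⟨k, by omega⟩
    simp only [z, hzQ] at h2
    exact h2
  obtain ⟨M, r₀, hMdet, hMr₀, hMr⟩ := exists_matrix a ha0 z hzorth
  have hnA : (0 : ℝ) ≤ n.factorial * A₀ := by positivity
  have hzb : ∀ k j, |((z k j : ℤ) : ℝ)| ≤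
      ((n + K * b : ℕ) + 1) * ((q * (n + K * b : ℕ) + β) ^ K * (n.factorial * A₀)) := by
    intro k j
    have hk : (k : ℕ) ≤ K := by have := k.2; omega
    obtain ⟨h2, h3⟩ := nabZ_iter (q := q) hb hBb hβ hβ0 (K := K) hnA hPn hPc k hk
    have h4 : (nabZ q B)^[(k : ℕ)] P j = (nabZ q B)^[(k : ℕ)] P j := rfl
    have h5 : ((z k j : ℤ) : ℝ) = Polynomial.aeval (1 : ℝ) ((nabZ q B)^[(k : ℕ)] P j) := by
      simp only [z]
      rw [Polynomial.aeval_def, Polynomial.eval₂_at_one]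
      simp
    rw [h5]
    have h6 : ((nabZ q B)^[(k : ℕ)] P j).natDegree ≤ n + K * b :=
      (h2 j).trans (Nat.add_le_add_left (Nat.mul_le_mul_right _ hk) _)
    have hbase : (1 : ℝ) ≤ q * (n + K * b : ℕ) + β := by
      have h7 : (1 : ℝ) ≤ q := by exact_mod_cast hE.hq
      have h8 : (1 : ℝ) ≤ ((n + K * b : ℕ) : ℝ) := by exact_mod_cast (show 1 ≤ n + K * b by omega)
      nlinarith
    refine aeval_bound zero_le_one le_rfl h6 fun l => (h3 j l).trans ?_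
    exact mul_le_mul_of_nonneg_right (pow_le_pow_right₀ hbase hk) hnA
  -- the small forms
  have hcvy : ∀ i, Cv 1 (y i) := fun i => Cv_of_cf (by linarith) (hE.size i)
  set R := ∑ i, ps (P i) * y i with hR
  have hps : ∀ Q : Polynomial ℤ, Cv (1 : ℝ) (ps Q) ∧ ev (1 : ℝ) (ps Q) = ((Q.eval 1 : ℤ) : ℝ) := by
    intro Q
    refine ⟨Cv.coe _, ?_⟩
    rw [ps, ev_coe, Polynomial.aeval_def, Polynomial.eval₂_map, div_one, Polynomial.eval₂_at_one]
    simp
  set LL : ℝ := n.factorial * (N * A₀ * C) * (q : ℝ) ^ K * K.factorial *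
        ((2 * C * Real.exp 1) ^ m₀ / m₀.factorial * Real.exp (2 * C * Real.exp 1)) with hLL
  have hsmall : ∀ k : Fin (K + 1), |∑ j, (z k j : ℝ) * ev 1 (y j)| ≤ LL := by
    intro k
    have hk : (k : ℕ) ≤ K := by have := k.2; omega
    have h2 := form_small (f := R) hC (H := n.factorial * (N * A₀ * C)) (by positivity) hPv
      (fun l => (hPs l).trans (le_of_eq (by ring))) q k K hE.hq hk
    have h3 := nab_iter Polynomial.coeToPowerSeries.ringHom coe_deriv' (T := TQ q)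
      (B := fun i j => (B i j).map (Int.castRingHom ℚ)) (Y := y) (fun i => hB i)
      (fun i => (P i).map (Int.castRingHom ℚ)) k
    have h4 : (fun f => (TQ q : ℚ⟦X⟧) * d⁄dX ℚ f)^[(k : ℕ)] R = ∑ j, ps ((nabZ q B)^[(k : ℕ)] P j) * y j := by
      have h5 : ∀ j, ps ((nabZ q B)^[(k : ℕ)] P j) = Polynomial.coeToPowerSeries.ringHom
          ((nab (TQ q) (fun i j => (B i j).map (Int.castRingHom ℚ)))^[(k : ℕ)]
            (fun i => (P i).map (Int.castRingHom ℚ)) j) := by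
        intro j
        rw [ps, nabZ_map]; rfl
      simp only [h5]
      rw [h3]
      rfl
    rw [h4, Cv.ev_sum one_pos _ _ (fun j _ => (hps _).1.mul one_pos (hcvy j))] at h2
    have h6 : ∑ j, (z k j : ℝ) * ev 1 (y j) = ∑ j, ev 1 (ps ((nabZ q B)^[(k : ℕ)] P j) * y j) := by
      refine Finset.sum_congr rfl fun j _ => ?_
      rw [(hps _).1.ev_mul one_pos (hcvy j), (hps _).2]
    rw [h6]
    exact h2.2
  have hA0 : 0 ≤ A := (abs_nonneg _).trans (hA i₀)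
  have hLL0 : 0 ≤ LL := by positivity
  have hA₀1 : 1 ≤ A₀ := by
    rw [hA₀]
    apply one_le_pow₀
    have h2 : (1 : ℝ) ≤ (2 * C) ^ (2 * m₀ + 1) := one_le_pow₀ (by linarith)
    have h3 : (1 : ℝ) ≤ ((N * (n + 1) : ℕ) : ℝ) := by
      exact_mod_cast (Nat.mul_pos hNpos (Nat.succ_pos n))
    nlinarith
  have hX1 : 1 ≤ ((n + K * b : ℕ) + 1) * ((q * (n + K * b : ℕ) + β) ^ K * (n.factorial * A₀)) := by
    have h2 : (1 : ℝ) ≤ ((n + K * b : ℕ) : ℝ) + 1 := by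
      have : (0 : ℝ) ≤ ((n + K * b : ℕ) : ℝ) := Nat.cast_nonneg _
      linarith
    have hbase : (1 : ℝ) ≤ q * (n + K * b : ℕ) + β := by
      have h7 : (1 : ℝ) ≤ q := by exact_mod_cast hE.hq
      have h8 : (1 : ℝ) ≤ ((n + K * b : ℕ) : ℝ) := by exact_mod_cast (show 1 ≤ n + K * b by omega)
      nlinarith
    have h3 : (1 : ℝ) ≤ (q * (n + K * b : ℕ) + β) ^ K := one_le_pow₀ hbase
    have h4 : (1 : ℝ) ≤ n.factorial := by exact_mod_cast n.factorial_pos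
    have h5 : (1 : ℝ) ≤ n.factorial * A₀ := one_le_mul_of_one_le_of_one_le h4 hA₀1
    exact one_le_mul_of_one_le_of_one_le h2 (one_le_mul_of_one_le_of_one_le h3 h5)
  refine det_ineq' M hMdet r₀ i₀ (fun j => ev 1 (y j)) (by simp only [h1]; exact ev_one) ε ?_ A _ LL hA0 hX1 hLL0 ?_ ?_ ?_
  · rw [hMr₀]; exact ha
  · intro j; rw [hMr₀]; exact hA j
  · intro r hr j
    obtain ⟨k, hk⟩ := hMr r hr
    rw [hk]; exact hzb k j
  · intro r hr
    obtain ⟨k, hk⟩ := hMr r hr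
    rw [hk]; exact hsmall k

/-- the choice of the parameter -/
lemma finish {G G1 c' F : ℝ} (hG : 0 ≤ G) (hG1 : 0 ≤ G1) (hc' : 0 ≤ c') (hF : 0 ≤ F) (c₁ a b : ℕ) :
    ∃ (c₀ : ℝ) (M : ℕ), 0 < c₀ ∧ ∀ (H ε : ℝ), 1 ≤ H → 0 ≤ ε →
      (∀ ν : ℕ, c₁ < ν → 1 ≤ (c' * H) * G ^ ν / (ν : ℝ) ^ ν + F * (G1 ^ ν * ((ν : ℝ) ^ ν) ^ a) ^ b * ε) →
      c₀ ≤ H ^ M * ε := by
  obtain ⟨ν₀, hν₀⟩ := exists_nat_ge (c₁ + 2 + G ^ 2 + G1)
  have hν₀c : c₁ + 2 ≤ ν₀ := by
    have : ((c₁ + 2 : ℕ) : ℝ) ≤ ν₀ := by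
      push_cast
      have := sq_nonneg G
      linarith
    exact_mod_cast this
  have hc1R : (0 : ℝ) ≤ c₁ := Nat.cast_nonneg _
  have hν₀G : G ^ 2 ≤ ν₀ := by linarith
  have hν₀G1 : G1 ≤ ν₀ := by
    have := sq_nonneg G
    linarith
  set C₃ : ℝ := (ν₀ : ℝ) ^ ν₀ + (2 * c') ^ 8 with hC₃
  have hC₃0 : 0 ≤ C₃ := by positivity
  set K : ℝ := F * (C₃ ^ (a + 1)) ^ b with hK
  have hK0 : 0 ≤ K := by positivity
  refine ⟨1 / (2 * (K + 1)), 8 * ((a + 1) * b), by positivity, fun H ε hH hε h => ?_⟩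
  have hex : ∃ ν : ℕ, ν₀ ≤ ν ∧ 2 * c' * H * G ^ ν ≤ (ν : ℝ) ^ ν := by
    have htend := tendsto_pow_atTop_atTop_of_one_lt (show (1 : ℝ) < 2 by norm_num)
    have h2 := (htend.eventually_gt_atTop (2 * c' * H)).and
      (((tendsto_natCast_atTop_atTop (R := ℝ)).eventually_ge_atTop (2 * G)).and
      (Filter.eventually_ge_atTop ν₀))
    obtain ⟨ν, h3, h4, h5⟩ := h2.exists
    refine ⟨ν, h5, ?_⟩
    calc 2 * c' * H * G ^ ν ≤ 2 ^ ν * G ^ ν := mul_le_mul_of_nonneg_right h3.le (by positivity)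
      _ = (2 * G) ^ ν := (mul_pow _ _ _).symm
      _ ≤ (ν : ℝ) ^ ν := pow_le_pow_left₀ (by positivity) h4 ν
  classical
  set ν := Nat.find hex with hνdef
  obtain ⟨hν1, hν2⟩ : ν₀ ≤ ν ∧ 2 * c' * H * G ^ ν ≤ (ν : ℝ) ^ ν := Nat.find_spec hex
  have hνpos : (0 : ℝ) < (ν : ℝ) ^ ν := by
    have : (0 : ℝ) < ν := by exact_mod_cast (by omega : 0 < ν)
    positivity
  have hb : (ν : ℝ) ^ ν ≤ C₃ * H ^ 8 := by
    have hH8 : 1 ≤ H ^ 8 := one_le_pow₀ hH
    rcases hν1.eq_or_lt with h3 | h3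
    · rw [← h3, hC₃]
      have h4 : (0 : ℝ) ≤ (2 * c') ^ 8 := by positivity
      have h5 : (0 : ℝ) ≤ (ν₀ : ℝ) ^ ν₀ := by positivity
      nlinarith
    · obtain ⟨μ, hμ⟩ : ∃ μ, ν = μ + 1 := ⟨ν - 1, by omega⟩
      have hμ0 : ν₀ ≤ μ := by omega
      have hμ2 : 2 ≤ μ := by omega
      have h4 : ¬ (ν₀ ≤ μ ∧ 2 * c' * H * G ^ μ ≤ (μ : ℝ) ^ μ) := Nat.find_min hex (by omega)
      have h5 : (μ : ℝ) ^ μ < 2 * c' * H * G ^ μ := by
        by_contra hcon
        exact h4 ⟨hμ0, not_lt.1 hcon⟩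
      have hμR : (2 : ℝ) ≤ μ := by exact_mod_cast hμ2
      have hw : (0 : ℝ) < (μ : ℝ) ^ μ := by positivity
      have h6 : (G ^ μ) ^ 2 ≤ (μ : ℝ) ^ μ := by
        rw [← pow_mul, mul_comm, pow_mul]
        refine pow_le_pow_left₀ (by positivity) (hν₀G.trans ?_) _
        exact_mod_cast hμ0
      have h7 : (μ : ℝ) ^ μ < (2 * c' * H) ^ 2 := by
        have h8 : ((μ : ℝ) ^ μ) ^ 2 < (2 * c' * H * G ^ μ) ^ 2 := pow_lt_pow_left₀ h5 hw.le (by norm_num)
        rw [mul_pow] at h8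
        have h9 : (2 * c' * H) ^ 2 * (G ^ μ) ^ 2 ≤ (2 * c' * H) ^ 2 * (μ : ℝ) ^ μ :=
          mul_le_mul_of_nonneg_left h6 (by positivity)
        have h10 := h8.trans_le h9
        rw [sq ((μ : ℝ) ^ μ)] at h10
        exact lt_of_mul_lt_mul_right h10 hw.le
      have h11 : ((μ + 1 : ℕ) : ℝ) ^ (μ + 1) ≤ ((μ : ℝ) ^ μ) ^ 4 := by
        calc ((μ + 1 : ℕ) : ℝ) ^ (μ + 1) ≤ (2 * (μ : ℝ)) ^ (μ + 1) := by
              refine pow_le_pow_left₀ (by positivity) ?_ _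
              push_cast
              linarith
          _ ≤ (2 * (μ : ℝ)) ^ (2 * μ) := pow_le_pow_right₀ (by linarith) (by omega)
          _ = (4 : ℝ) ^ μ * ((μ : ℝ) ^ μ) ^ 2 := by
              rw [mul_pow, pow_mul, pow_mul, ← pow_mul (μ : ℝ) μ 2, mul_comm μ 2, pow_mul (μ : ℝ) 2 μ]
              norm_num
          _ ≤ ((μ : ℝ) ^ μ) ^ 2 * ((μ : ℝ) ^ μ) ^ 2 := by
              refine mul_le_mul_of_nonneg_right ?_ (by positivity)
              rw [← pow_mul, mul_comm, pow_mul]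
              refine pow_le_pow_left₀ (by norm_num) ?_ _
              nlinarith
          _ = _ := by ring
      have h12 : ((μ : ℝ) ^ μ) ^ 4 ≤ ((2 * c' * H) ^ 2) ^ 4 := pow_le_pow_left₀ hw.le h7.le 4
      rw [hμ]
      refine h11.trans (h12.trans ?_)
      have h13 : ((2 * c' * H) ^ 2) ^ 4 = (2 * c') ^ 8 * H ^ 8 := by ring
      rw [h13, hC₃]
      refine mul_le_mul_of_nonneg_right ?_ (by positivity)
      have : (0 : ℝ) ≤ (ν₀ : ℝ) ^ ν₀ := by positivity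
      linarith
  have h1 := h ν (by omega)
  have h2 : (c' * H) * G ^ ν / (ν : ℝ) ^ ν ≤ 1 / 2 := by
    rw [div_le_iff₀ hνpos]
    linarith
  have h3 : (G1 ^ ν * ((ν : ℝ) ^ ν) ^ a) ^ b ≤ ((C₃ * H ^ 8) ^ (a + 1)) ^ b := by
    refine pow_le_pow_left₀ (by positivity) ?_ _
    have h4 : G1 ^ ν ≤ (ν : ℝ) ^ ν := by
      refine pow_le_pow_left₀ hG1 (hν₀G1.trans ?_) _
      exact_mod_cast hν1
    calc G1 ^ ν * ((ν : ℝ) ^ ν) ^ a ≤ (ν : ℝ) ^ ν * ((ν : ℝ) ^ ν) ^ a := mul_le_mul_of_nonneg_right h4 (by positivity)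
      _ = ((ν : ℝ) ^ ν) ^ (a + 1) := by rw [pow_succ]; ring
      _ ≤ _ := pow_le_pow_left₀ hνpos.le hb _
  have h5 : F * (G1 ^ ν * ((ν : ℝ) ^ ν) ^ a) ^ b * ε ≤ K * H ^ (8 * ((a + 1) * b)) * ε := by
    refine mul_le_mul_of_nonneg_right ?_ hε
    refine (mul_le_mul_of_nonneg_left h3 hF).trans (le_of_eq ?_)
    rw [hK, mul_pow, mul_pow, mul_assoc]
    congr 2
    rw [← pow_mul, ← pow_mul]
  have h6 : 1 / 2 ≤ K * H ^ (8 * ((a + 1) * b)) * ε := by linarith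
  rw [div_le_iff₀ (by positivity)]
  have h7 : 0 ≤ H ^ (8 * ((a + 1) * b)) * ε := by positivity
  nlinarith

/-- **a measure of linear independence for values of E-functions** -/
theorem E_meas {N q : ℕ} {C : ℝ} {y : Fin N → ℚ⟦X⟧} (hE : ESys q C y) (i₀ : Fin N) (h1 : y i₀ = 1)
    (hLI : LinearIndependent (Polynomial ℚ) y) :
    ∃ (c₀ : ℝ) (M : ℕ), 0 < c₀ ∧ ∀ (a : Fin N → ℤ) (H : ℝ), a ≠ 0 → 1 ≤ H → (∀ i, |(a i : ℝ)| ≤ H) →
      c₀ ≤ H ^ M * |∑ i, (a i : ℝ) * ev 1 (y i)| := by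
  have hC := hE.one_le
  have hNpos : 0 < N := i₀.pos
  -- the case N = 1
  rcases Nat.lt_or_ge N 2 with hN | hN
  · have hN1 : N = 1 := by omega
    subst hN1
    refine ⟨1, 0, one_pos, fun a H ha _ _ => ?_⟩
    have hi : ∀ j : Fin 1, j = i₀ := fun j => Subsingleton.elim _ _
    have h2 : ∑ i, (a i : ℝ) * ev 1 (y i) = (a i₀ : ℝ) := by
      rw [Fin.sum_univ_one]
      rw [hi 0, h1, ev_one, mul_one]
    rw [h2, pow_zero, one_mul]
    have h3 : a i₀ ≠ 0 := fun h => ha (funext fun j => by rw [hi j]; exact h)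
    exact_mod_cast Int.one_le_abs h3
  obtain ⟨B, hB⟩ := hE.der
  have hq1 : (1 : ℝ) ≤ q := by exact_mod_cast hE.hq
  obtain ⟨c₁, hc₁⟩ := rank_nab (T := TQ q) (B := fun i j => (B i j).map (Int.castRingHom ℚ)) hB hLI i₀ h1 1
    one_ne_zero (by
      simp only [TQ, Polynomial.eval_mul, Polynomial.eval_C, Polynomial.eval_X, mul_one]
      exact_mod_cast (by have := hE.hq; omega : q ≠ 0))
  obtain ⟨b, hb, hBb⟩ : ∃ b : ℕ, 1 ≤ b ∧ ∀ i j, (B i j).natDegree ≤ b := by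
    refine ⟨1 + ∑ i, ∑ j, (B i j).natDegree, by omega, fun i j => ?_⟩
    have h2 : (B i j).natDegree ≤ ∑ j, (B i j).natDegree :=
      Finset.single_le_sum (f := fun j => (B i j).natDegree) (fun _ _ => Nat.zero_le _) (Finset.mem_univ j)
    have h3 : ∑ j, (B i j).natDegree ≤ ∑ i, ∑ j, (B i j).natDegree :=
      Finset.single_le_sum (f := fun i => ∑ j, (B i j).natDegree) (fun _ _ => Nat.zero_le _) (Finset.mem_univ i)
    omega
  obtain ⟨β, hβ0, hβ⟩ : ∃ β : ℝ, 0 ≤ β ∧ ∀ j, ∑ i, l1 (B i j) ≤ β := by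
    refine ⟨∑ j, ∑ i, l1 (B i j), Finset.sum_nonneg fun _ _ => Finset.sum_nonneg fun _ _ => l1_nonneg _, fun j => ?_⟩
    exact Finset.single_le_sum (f := fun j => ∑ i, l1 (B i j))
      (fun _ _ => Finset.sum_nonneg fun _ _ => l1_nonneg _) (Finset.mem_univ j)
  -- parameters
  set L : ℕ := 2 * N + 1 with hL
  have hNL : 2 ≤ N * L := by
    calc 2 ≤ N := hN
      _ = N * 1 := (mul_one N).symm
      _ ≤ N * L := Nat.mul_le_mul_left _ (by omega)
  set g1 : ℝ := 2 * ((L + 2 * b + 1 : ℕ) : ℝ) with hg1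
  set g2 : ℝ := q * ((L + 2 * b : ℕ) : ℝ) + β with hg2
  set g3 : ℝ := ((2 * (N * (L + 1) : ℕ)) * (2 * C) ^ (2 * (N * L))) ^ (N * L) with hg3
  set G1 : ℝ := g1 * (g2 ^ 2 * ((L : ℝ) ^ L * g3)) with hG1
  set G2 : ℝ := (L : ℝ) ^ L * g3 * (q : ℝ) ^ 2 * 4 * (2 * C * Real.exp 1) ^ (N * L - 1) with hG2
  set c2 : ℝ := N * C * Real.exp (2 * C * Real.exp 1) with hc2
  set G : ℝ := G1 ^ (N - 2) * G2 with hG
  set c' : ℝ := N * N.factorial * c2 with hc'
  have hg20 : 0 ≤ g2 := by positivity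
  have hG10 : 0 ≤ G1 := by positivity
  have hG0 : 0 ≤ G := by positivity
  obtain ⟨c₀, M, hc₀, hfin⟩ := finish (G := G) (G1 := G1) (c' := c') (F := N.factorial) hG0 hG10 (by positivity)
    (by positivity) c₁ (L + 2) (N - 1)
  refine ⟨c₀, M, hc₀, fun a A hane hA1 hAi => hfin A _ hA1 (abs_nonneg _) ?_⟩
  set ε : ℝ := |∑ i, (a i : ℝ) * ev 1 (y i)| with hε
  have hε0 : 0 ≤ ε := abs_nonneg _
  have hA0 : 0 ≤ A := by linarith
  set c : ℝ := N * (N.factorial * A) * c2 with hc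
  have hcc : c' * A = c := by rw [hc, hc']; ring
  rw [hcc]
  have hkey : ∀ ν : ℕ, c₁ < ν → 1 ≤ c * G ^ ν / (ν : ℝ) ^ ν +
      N.factorial * (G1 ^ ν * ((ν : ℝ) ^ ν) ^ (L + 2)) ^ (N - 1) * ε := by
    intro ν hν
    have hν1 : 1 ≤ ν := by omega
    have hν1' : (1 : ℝ) ≤ ν := by exact_mod_cast hν1
    obtain ⟨n, hn⟩ : ∃ n, n = L * ν := ⟨_, rfl⟩
    obtain ⟨m₀, hm₀⟩ : ∃ m₀, m₀ = (N * L - 1) * ν := ⟨_, rfl⟩
    obtain ⟨K, hK⟩ : ∃ K, K = 2 * ν := ⟨_, rfl⟩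
    have hm₀' : m₀ + ν = N * n := by
      have h2 : N * n = N * L * ν := by rw [hn]; ring
      rw [h2, hm₀, Nat.sub_mul, one_mul]
      have : ν ≤ N * L * ν := Nat.le_mul_of_pos_left ν (by omega)
      omega
    have h := core' hE i₀ h1 hB hb hBb hβ hβ0 hc₁ a hane ε le_rfl A hAi L ν n m₀ K (by omega) hν hn hm₀' hK _ rfl
    set A₀ : ℝ := ((N * (n + 1) : ℕ) * (2 * C) ^ (2 * m₀ + 1)) ^ (N * L) with hA₀
    have hA₀0 : 0 ≤ A₀ := by positivity
    have hA₀g : A₀ ≤ g3 ^ ν := A0_le hC hNpos hν1 hn hm₀'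
    obtain ⟨u, hu⟩ : ∃ u : ℝ, u = (ν : ℝ) ^ ν := ⟨_, rfl⟩
    rw [← hu]
    have hu1 : 1 ≤ u := by rw [hu]; exact one_le_pow₀ hν1'
    have hu0 : 0 < u := by linarith
    have hnf : (n.factorial : ℝ) ≤ ((L : ℝ) ^ L) ^ ν * u ^ L := by rw [hn, hu]; exact fac_le L ν
    -- X
    have hX : ((n + K * b : ℕ) + 1) * ((q * (n + K * b : ℕ) + β) ^ K * (n.factorial * A₀)) ≤ G1 ^ ν * u ^ (L + 2) := by
      have hnK : n + K * b = (L + 2 * b) * ν := by rw [hn, hK]; ring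
      have h2 : (((n + K * b : ℕ) : ℝ) + 1) ≤ g1 ^ ν := by
        have h3 : (1 : ℝ) ≤ ((L + 2 * b + 1 : ℕ) : ℝ) := by exact_mod_cast (show 1 ≤ L + 2 * b + 1 by omega)
        refine le_trans ?_ (lin_le_pow h3 hν1)
        rw [hnK]
        push_cast
        nlinarith
      have h4 : (q * ((n + K * b : ℕ) : ℝ) + β) ^ K ≤ (g2 ^ 2) ^ ν * u ^ 2 := by
        have h5 : q * ((n + K * b : ℕ) : ℝ) + β ≤ g2 * ν := by
          rw [hnK, hg2]
          push_cast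
          nlinarith
        calc (q * ((n + K * b : ℕ) : ℝ) + β) ^ K ≤ (g2 * ν) ^ K := pow_le_pow_left₀ (by positivity) h5 K
          _ = (g2 ^ 2) ^ ν * u ^ 2 := by
            rw [hK, hu, mul_pow, ← pow_mul, ← pow_mul, mul_comm ν 2]
      calc ((n + K * b : ℕ) + 1) * ((q * (n + K * b : ℕ) + β) ^ K * (n.factorial * A₀))
          ≤ g1 ^ ν * (((g2 ^ 2) ^ ν * u ^ 2) * ((((L : ℝ) ^ L) ^ ν * u ^ L) * g3 ^ ν)) := by
            refine mul_le_mul h2 ?_ (by positivity) (by positivity)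
            refine mul_le_mul h4 ?_ (by positivity) (by positivity)
            exact mul_le_mul hnf hA₀g hA₀0 (by positivity)
        _ = G1 ^ ν * u ^ (L + 2) := by
            rw [hG1, mul_pow g1, mul_pow (g2 ^ 2), mul_pow ((L : ℝ) ^ L), pow_add u]
            generalize g1 ^ ν = x1
            generalize (g2 ^ 2) ^ ν = x2
            generalize ((L : ℝ) ^ L) ^ ν = x3
            generalize g3 ^ ν = x4
            ring
    have hLL : n.factorial * (N * A₀ * C) * (q : ℝ) ^ K * K.factorial *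
        ((2 * C * Real.exp 1) ^ m₀ / m₀.factorial * Real.exp (2 * C * Real.exp 1)) ≤
        c2 * G2 ^ ν * (u ^ (L + 2) / u ^ (N * L - 2)) := by
      have h2 : (K.factorial : ℝ) ≤ (4 : ℝ) ^ ν * u ^ 2 := by
        rw [hK]
        refine (fac_le 2 ν).trans (le_of_eq ?_)
        rw [hu]
        norm_num
      have h3 : (q : ℝ) ^ K = ((q : ℝ) ^ 2) ^ ν := by rw [hK, pow_mul]
      have h4 : (2 * C * Real.exp 1) ^ m₀ = ((2 * C * Real.exp 1) ^ (N * L - 1)) ^ ν := by rw [hm₀, pow_mul]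
      have h5 : u ^ (N * L - 2) ≤ (m₀.factorial : ℝ) := by
        have := fac_ge (R := N * L - 1) (ν := ν) (by omega)
        rw [hm₀, hu, show N * L - 2 = N * L - 1 - 1 by omega]
        exact this
      have h6 : ((2 * C * Real.exp 1) ^ m₀ / m₀.factorial) ≤ ((2 * C * Real.exp 1) ^ (N * L - 1)) ^ ν / u ^ (N * L - 2) := by
        rw [h4]
        exact div_le_div_of_nonneg_left (by positivity) (by positivity) h5
      calc n.factorial * (N * A₀ * C) * (q : ℝ) ^ K * K.factorial *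
            ((2 * C * Real.exp 1) ^ m₀ / m₀.factorial * Real.exp (2 * C * Real.exp 1))
          ≤ (((L : ℝ) ^ L) ^ ν * u ^ L) * (N * g3 ^ ν * C) * ((q : ℝ) ^ 2) ^ ν * ((4 : ℝ) ^ ν * u ^ 2) *
            (((2 * C * Real.exp 1) ^ (N * L - 1)) ^ ν / u ^ (N * L - 2) * Real.exp (2 * C * Real.exp 1)) := by
            rw [← h3]
            refine mul_le_mul ?_ ?_ (by positivity) (by positivity)
            · refine mul_le_mul ?_ h2 (by positivity) (by positivity)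
              refine mul_le_mul_of_nonneg_right ?_ (by positivity)
              refine mul_le_mul hnf ?_ (by positivity) (by positivity)
              refine mul_le_mul_of_nonneg_right ?_ (by positivity)
              exact mul_le_mul_of_nonneg_left hA₀g (by positivity)
            · exact mul_le_mul_of_nonneg_right h6 (by positivity)
        _ = c2 * G2 ^ ν * (u ^ (L + 2) / u ^ (N * L - 2)) := by
            rw [hG2, hc2, mul_pow, mul_pow, mul_pow, mul_pow, pow_add]; ring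
    have hcomb : (1 : ℝ) ≤ N * (N.factorial * (A * (G1 ^ ν * u ^ (L + 2)) ^ (N - 2)) *
        (c2 * G2 ^ ν * (u ^ (L + 2) / u ^ (N * L - 2)))) +
        N.factorial * (G1 ^ ν * u ^ (L + 2)) ^ (N - 1) * ε := by
      refine h.trans (add_le_add ?_ ?_)
      · refine mul_le_mul_of_nonneg_left ?_ (by positivity)
        refine mul_le_mul ?_ hLL (by positivity) (by positivity)
        refine mul_le_mul_of_nonneg_left ?_ (by positivity)
        refine mul_le_mul_of_nonneg_left ?_ hA0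
        exact pow_le_pow_left₀ (by positivity) hX _
      · refine mul_le_mul_of_nonneg_right ?_ hε0
        refine mul_le_mul_of_nonneg_left ?_ (by positivity)
        exact pow_le_pow_left₀ (by positivity) hX _
    have hexp : u ^ (N * L - 2) = (u ^ (L + 2)) ^ (N - 2) * u ^ (L + 2) * u := by
      rw [← pow_mul, ← pow_add, ← pow_succ]
      congr 1
      obtain ⟨M, rfl⟩ : ∃ M, N = M + 2 := ⟨N - 2, by omega⟩
      simp only [Nat.add_sub_cancel]
      have e1 : (M + 2) * L = (L + 2) * M + (L + 2) + 1 + 2 := by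
        rw [hL]; ring
      omega
    have h7 : N * (N.factorial * (A * (G1 ^ ν * u ^ (L + 2)) ^ (N - 2)) *
        (c2 * G2 ^ ν * (u ^ (L + 2) / u ^ (N * L - 2)))) = c * G ^ ν / u := by
      rw [hexp, hc, hG, mul_pow (G1 ^ ν), mul_pow (G1 ^ (N - 2)), ← pow_mul G1, ← pow_mul G1, mul_comm ν (N - 2)]
      field_simp
    rw [h7] at hcomb
    exact hcomb
  exact hkey

end Pool.Agent.R347.EM
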