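import Pool.Agent.R347.EM.TLin

/-!
# Incomplete gamma values over `L(e)`
-/

set_option autoImplicit false

open Set

namespace Pool.Agent.R347.EM.T

open Pool.Agent.R352.T Pool.Agent.R347.LC Pool.Agent.R347.EM
open Pool.Agent.R352.E (mem_clF clF subset_clF clF_mono clF_le of_pow exp_rat_mem rat_mem encard_le_of_finset)

/-- the field `L(e)` over the rationals -/
noncomputable def Le (L : IntermediateField ℚ ℝ) : IntermediateField ℚ ℝ :=
  (IntermediateField.adjoin L {Real.exp 1}).restrictScalars ℚ

variable {L : IntermediateField ℚ ℝ}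

open scoped IntermediateField.algebraAdjoinAdjoin in
/-- algebraic independence over `L(e)` -/
lemma over_e {P : Type*} {Z : P → ℝ} (hAI : AlgebraicIndependent L (fun o : Option P => o.elim (Real.exp 1) Z)) :
    AlgebraicIndependent (IntermediateField.adjoin L {Real.exp 1}) Z := by
  let g : P ⊕ Unit → Option P := Sum.elim some fun _ => none
  have hg : Function.Injective g := by
    rintro (a | a) (b | b) h
    · simp [g] at h; rw [h]
    · simp [g] at h
    · simp [g] at h
    · rfl
  have h1 : AlgebraicIndependent L (Sum.elim Z fun _ : Unit => Real.exp 1) := by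
    have h2 := hAI.comp g hg
    convert h2 using 1
    funext i
    rcases i with i | i <;> rfl
  have h3 := (AlgebraicIndependent.sumElim_iff.1 h1).2
  have h4 : range (fun _ : Unit => Real.exp 1) = {Real.exp 1} := by
    ext z; simp [eq_comm]
  rw [h4] at h3
  exact h3.extendScalars _

lemma over_e' {P : Type*} {Z : P → ℝ} (hAI : AlgebraicIndependent L (fun o : Option P => o.elim (Real.exp 1) Z)) :
    AlgebraicIndependent (Le L) Z := over_e hAI

lemma Le_sub : (L : Set ℝ) ⊆ Le L := fun x hx => by
  have := (IntermediateField.adjoin L {Real.exp 1}).algebraMap_mem ⟨x, hx⟩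
  exact this

lemma exp_Le : Real.exp 1 ∈ Le L := IntermediateField.subset_adjoin L _ rfl

lemma Le_le {T : Set ℝ} (h1 : (L : Set ℝ) ⊆ clF T) (h2 : Real.exp 1 ∈ clF T) : ((Le L : IntermediateField ℚ ℝ) : Set ℝ) ⊆ clF T := by
  intro x hx
  have h3 : x ∈ clF ((L : Set ℝ) ∪ {Real.exp 1}) :=
    mem_cl.2 (isAlgebraic_algebraMap (⟨x, hx⟩ : IntermediateField.adjoin L {Real.exp 1}))
  refine clF_le ?_ h3
  rintro z (hz | rfl)
  · exact h1 hz
  · exact h2

lemma mem_clLe {T : Set ℝ} {x : ℝ} : x ∈ clF ((Le L : Set ℝ) ∪ T) ↔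
    IsAlgebraic (IntermediateField.adjoin (IntermediateField.adjoin L {Real.exp 1}) T) x :=
  mem_cl (L := Le L)

/-- an upper bound for the transcendence degree of a generated field -/
lemma trdeg_leL {K : IntermediateField ℚ ℝ} {A G : Set ℝ} {n : ℕ} (h : A ⊆ clF ((K : Set ℝ) ∪ G)) (hG : G.encard ≤ n) :
    Algebra.trdeg K (IntermediateField.adjoin K A) ≤ n := by
  refine ciSup_le' fun s => Cardinal.card_le_of fun t => ?_
  have h1 : AlgebraicIndependent K (fun i : t => (((i : s.1) : IntermediateField.adjoin K A) : ℝ)) := by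
    have h2 : AlgebraicIndependent K (fun i : s.1 => ((i : IntermediateField.adjoin K A) : ℝ)) := by
      have h3 : Function.Injective (IntermediateField.adjoin K A).val := (IntermediateField.adjoin K A).val.injective
      exact ((IntermediateField.adjoin K A).val.algebraicIndependent_iff h3).2 s.2
    exact h2.comp _ Subtype.val_injective
  have h2 := card_leL h1 (T := G) (fun i => by
    have h4 : (((i : s.1) : IntermediateField.adjoin K A) : ℝ) ∈ clF ((K : Set ℝ) ∪ A) :=
      mem_cl.2 (isAlgebraic_algebraMap ((i : s.1) : IntermediateField.adjoin K A))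
    refine clF_le ?_ h4
    rintro z (hz | hz)
    · exact subset_clF _ (Or.inl hz)
    · exact h hz)
  have h3 := h2.trans ((Matroid.eRk_le_encard _ _).trans hG)
  rw [Fintype.card_coe] at h3
  exact_mod_cast h3

section

variable {p : ℕ → ℕ} (hp : ∀ k, 2 ≤ p k) (hL : ∀ x ∈ L, RA p x)

include hp hL

/-- the number of the algebraic values -/
theorem card_over {S : Set (ℚ × ℚ)} {B : Set ℝ} (hS : ∀ p ∈ S, 0 < p.1 ∧ p.1 < 1 ∧ 0 < p.2 ∧
      Real.Gamma p.1 ∈ clF ((Le L : Set ℝ) ∪ B) ∧ gu p.1 p.2 ∈ clF ((Le L : Set ℝ) ∪ B)) :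
    Cardinal.mk S ≤ Algebra.trdeg (Le L) (IntermediateField.adjoin (Le L) B) := by
  have key : ∀ t : Finset S, (t.card : Cardinal) ≤ Algebra.trdeg (Le L) (IntermediateField.adjoin (Le L) B) := by
    intro t
    have h1 := AI_subL hp hL (P := t) (fun i => (0, i.1.1)) (by
      intro i j h
      have h2 : i.1.1 = j.1.1 := congrArg Prod.snd h
      exact Subtype.ext (Subtype.ext h2)) (fun i => ⟨(hS _ i.1.2).1.le, (hS _ i.1.2).2.1, (hS _ i.1.2).2.2.1⟩)
    have h2 := over_e' h1
    have h3 := trdeg_geL h2 (A := B) (fun i => by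
      have h4 := hS _ i.1.2
      have := EA_one_mem (T := (Le L : Set ℝ) ∪ B) h4.1 h4.2.2.1 (subset_clF _ (Or.inl exp_Le)) h4.2.2.2.1 h4.2.2.2.2
      simpa using this)
    rwa [Fintype.card_coe] at h3
  by_cases hfin : S.Finite
  · have := hfin.fintype
    have h := key Finset.univ
    rw [Finset.card_univ] at h
    rwa [Cardinal.mk_fintype]
  · refine (Cardinal.mk_le_aleph0 (α := S)).trans (Cardinal.aleph0_le.2 fun n => ?_)
    have hinf : Infinite S := Set.infinite_coe_iff.2 hfin
    obtain ⟨t, ht⟩ := Infinite.exists_subset_card_eq S n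
    rw [← ht]
    exact key t

end

end Pool.Agent.R347.EM.T
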