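import Pool.Agent.R347.EM.Mat
import Pool.Agent.R347.EM.Meas
import Pool.Agent.R347.EM.Fam
import Pool.Agent.R352.T.Fam
import Pool.Agent.R352.T.Half

/-!
# Values of incomplete gamma functions over fields of numbers with good rational approximations
-/

set_option autoImplicit false
set_option linter.unusedSectionVars false
set_option linter.unusedSimpArgs false

open PowerSeries Finset.HasAntidiagonal

namespace Pool.Agent.R347.EM.T

open Pool.Agent.Y113 Pool.Agent.R352.T Pool.Agent.R347.LC Pool.Agent.R347.EM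
open Pool.Agent.R352.E (EF EF.mul EF.one EF.pow EF.prod EF.cv EF.common wS ES EF_wS TQ_eq deriv_wS wS_ne mon mon_eq mon_add mon_single
  Sp ps_add ps_mul ps_C ps_X ps_zero ps_one Sp.add Sp.zero Sp.mul Sp.mem Sp.sum ESys TQ lcm_bound ev_wS cf
  Sg prT mT lt_w_iff ES_zero coeff_wS_pow clF subset_clF clF_mono clF_le of_pow exp_rat_mem rat_mem encard_le_of_finset)

section

variable {p : ℕ → ℕ} (hp : ∀ k, 2 ≤ p k) (L : IntermediateField ℚ ℝ) (hL : ∀ x ∈ L, RA p x)

include hp hL

variable {σ : Type} [Fintype σ] [LinearOrder σ] {t : Tv σ} {q : ℕ} {f : σ → ℚ⟦X⟧}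

/-- linear independence of the values at `1` of the monomials -/
theorem val_LIL (R : Real' t q f) {M J₀ : ℕ} (hM : ∀ v, v < t.w → t.m v ≤ M) (hM1 : 1 ≤ M) [Fintype (Idx t M J₀)] :
    LinearIndependent L (fun s : Idx t M J₀ => ev 1 (mon f s.1)) := by
  classical
  set N := Fintype.card (Idx t M J₀) with hN
  let e : Fin N ≃ Idx t M J₀ := (Fintype.equivFin _).symm
  set y : Fin N → ℚ⟦X⟧ := fun i => mon f (e i).1 with hy
  obtain ⟨C, hC, h1, h2⟩ := EF.common (y := y) (fun i => EF_mon R (e i).2.1)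
  have hSys : ESys q C y :=
    { one_le := hC
      hq := R.hq
      size := h1
      den := h2
      der := by
        have h3 := fun i => deriv_Sp R hM hM1 (e i)
        choose B hB using h3
        refine ⟨fun i j => B i (e j), fun i => ?_⟩
        rw [hy, hB i, ← Equiv.sum_comp e] }
  have h0 : e (e.symm ⟨0, by simp⟩) = (⟨0, by simp⟩ : Idx t M J₀) := e.apply_symm_apply _
  have h3 := E_linL hp L hL hSys (e.symm ⟨0, by simp⟩) (by
    rw [hy]
    simp only [h0]
    rw [mon_eq]; simp) ((mon_LI R).comp e e.injective)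
  have h4 := h3.comp e.symm e.symm.injective
  convert h4 using 1
  funext s
  simp only [Function.comp_apply, hy, Equiv.apply_symm_apply]

/-- algebraic independence of the values at `1` -/
theorem val_algL (R : Real' t q f) : AlgebraicIndependent L (fun i : {i : σ // i ≠ t.z} => ev 1 (f i.1)) := by
  classical
  obtain ⟨M, hM1, hM⟩ : ∃ M : ℕ, 1 ≤ M ∧ ∀ v, v < t.w → t.m v ≤ M := by
    refine ⟨1 + ∑ v, t.m v, by omega, fun v _ => ?_⟩
    have := Finset.single_le_sum (f := fun v => t.m v) (fun _ _ => Nat.zero_le _) (Finset.mem_univ v)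
    omega
  rw [algebraicIndependent_iff]
  intro p hp0
  set p' : MvPolynomial σ L := MvPolynomial.rename Subtype.val p with hp'
  have hinj : Function.Injective (MvPolynomial.rename (R := L) (Subtype.val : {i : σ // i ≠ t.z} → σ)) :=
    MvPolynomial.rename_injective _ Subtype.val_injective
  suffices h : p' = 0 by
    apply hinj
    rw [← hp', h, map_zero]
  have hval : MvPolynomial.aeval (fun i : σ => ev 1 (f i)) p' = 0 := by
    rw [hp', MvPolynomial.aeval_rename, ← hp0]
    rfl
  have hz : ∀ s ∈ p'.support, s t.z = 0 := by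
    intro s hs
    have h1 := MvPolynomial.coeff_rename_ne_zero _ _ _ (MvPolynomial.mem_support_iff.1 hs)
    obtain ⟨u, hu, _⟩ := h1
    rw [← hu]
    apply Finsupp.mapDomain_of_notMem_range
    rintro ⟨i, hi⟩
    exact i.2 hi
  set J₀ : ℕ := ∑ s ∈ p'.support, (s t.w + M * ∑ v ∈ t.V, s v) with hJ₀
  haveI : Finite (Idx t M J₀) := Idx_finite t hM1
  letI : Fintype (Idx t M J₀) := Fintype.ofFinite _
  have hmem : ∀ s ∈ p'.support, s t.z = 0 ∧ s t.w + M * ∑ v ∈ t.V, s v ≤ J₀ := by
    intro s hs
    refine ⟨hz s hs, ?_⟩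
    rw [hJ₀]
    exact Finset.single_le_sum (f := fun s : σ →₀ ℕ => s t.w + M * ∑ v ∈ t.V, s v) (fun _ _ => Nat.zero_le _) hs
  have hLI := Fintype.linearIndependent_iff.1 (val_LIL hp L hL R hM hM1 (J₀ := J₀))
    (fun s => MvPolynomial.coeff s.1 p') (by
      have h1 : ∑ s : Idx t M J₀, MvPolynomial.coeff s.1 p' • ev 1 (mon f s.1) =
          ∑ s ∈ (Finset.univ : Finset (Idx t M J₀)).map ⟨Subtype.val, Subtype.val_injective⟩,
            MvPolynomial.coeff s p' • ev 1 (mon f s) := by
        rw [Finset.sum_map]; rfl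
      rw [h1, ← hval]
      have h2 : p'.support ⊆ (Finset.univ : Finset (Idx t M J₀)).map ⟨Subtype.val, Subtype.val_injective⟩ := by
        intro s hs
        rw [Finset.mem_map]
        exact ⟨⟨s, hmem s hs⟩, Finset.mem_univ _, rfl⟩
      rw [← Finset.sum_subset h2 (fun s _ hs => by rw [MvPolynomial.notMem_support_iff.1 hs, zero_smul])]
      conv_rhs => rw [MvPolynomial.as_sum p', map_sum]
      refine Finset.sum_congr rfl fun s _ => ?_
      rw [MvPolynomial.aeval_monomial, ev_mon R, Finsupp.prod_fintype _ _ (fun i => pow_zero _), Algebra.smul_def])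
  ext s
  rw [MvPolynomial.coeff_zero]
  by_cases hs : s ∈ p'.support
  · exact congrArg Subtype.val (hLI ⟨s, hmem s hs⟩)
  · exact congrArg Subtype.val (MvPolynomial.notMem_support_iff.1 hs)

/-- algebraic independence of `exp (-1/q)` and the numbers `E_{a_i,l} (m_i / q)`, `1 ≤ l ≤ J` -/
theorem EA_algL (J k : ℕ) (mm cc : Fin k → ℕ) (hinj : ∀ i i', mm i = mm i' → cc i = cc i' → i = i') (hpos : ∀ i, 1 ≤ mm i) {q : ℕ} (hq : 1 ≤ q)
    (hcq : ∀ i, cc i < q) :
    AlgebraicIndependent L (fun o : Option (Fin J × Fin k) =>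
      o.elim (Real.exp (-1 / q)) (fun p => EA ((cc p.2 : ℝ) / q) (p.1 + 1) ((mm p.2 : ℝ) / q))) := by
  have h1 := val_algL hp L hL (real_tw J k mm cc hinj hpos hq hcq)
  -- reindexing
  let g : Option (Fin J × Fin k) → {i : Sg J k // i ≠ (tw J k mm cc hinj hpos).z} := fun o =>
    match o with
    | none => ⟨toLex (Sum.inr 0), fun h => by
        have := Sum.inr_injective (toLex.injective h)
        exact absurd this (by decide)⟩
    | some p => ⟨toLex (Sum.inl (toLex (Fin.rev p.1, p.2))), fun h => Sum.inl_ne_inr (toLex.injective h)⟩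
  have hg : Function.Injective g := by
    intro o o' h
    rcases o with _ | p <;> rcases o' with _ | p'
    · rfl
    · exact absurd (toLex.injective (congrArg Subtype.val h)) Sum.inr_ne_inl
    · exact absurd (toLex.injective (congrArg Subtype.val h)) Sum.inl_ne_inr
    · have h2 := toLex.injective (Sum.inl_injective (toLex.injective (congrArg Subtype.val h)))
      have h3 := congrArg Prod.fst h2
      have h4 := congrArg Prod.snd h2
      simp only at h3 h4
      have h5 := Fin.rev_injective h3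
      rw [Prod.ext h5 h4]
  have h2 := h1.comp g hg
  convert h2 using 1
  funext o
  rcases o with _ | p
  · show Real.exp (-1 / q) = ev 1 (wS q)
    rw [ev_wS]
  · show EA ((cc p.2 : ℝ) / q) (p.1 + 1) ((mm p.2 : ℝ) / q) =
      ev 1 (ESa ((cc p.2 : ℚ) / q) (J - (Fin.rev p.1 : Fin J)) ((mm p.2 : ℚ) / q))
    rw [ev_ESa _ _ _ _ hq]
    congr 1
    rw [Fin.val_rev]
    have := p.1.2
    omega

end

open Filter Topology Set MeasureTheory

section

variable {p : ℕ → ℕ} (hp : ∀ k, 2 ≤ p k) {L : IntermediateField ℚ ℝ} (hL : ∀ x ∈ L, RA p x)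

include hp hL

lemma EA_alg_finL (J : ℕ) {k : ℕ} (a x : Fin k → ℚ) (hinj : ∀ i i', a i = a i' → x i = x i' → i = i')
    (ha0 : ∀ i, 0 ≤ a i) (ha1 : ∀ i, a i < 1) (hpos : ∀ i, 0 < x i) :
    AlgebraicIndependent L (fun o : Option (Fin J × Fin k) =>
      o.elim (Real.exp 1) (fun p => EA (a p.2) (p.1 + 1) (x p.2))) := by
  set q : ℕ := (∏ i, (x i).den) * ∏ i, (a i).den with hqd
  have hq : 1 ≤ q := Nat.one_le_iff_ne_zero.2 (Nat.mul_ne_zero
    (Finset.prod_ne_zero_iff.2 fun i _ => (x i).den_ne_zero) (Finset.prod_ne_zero_iff.2 fun i _ => (a i).den_ne_zero))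
  have hq' : (q : ℝ) ≠ 0 := by positivity
  have hqp : (0 : ℝ) < q := by positivity
  have h1 := common_den x (fun i => (hpos i).le) q
    (fun i => (Finset.dvd_prod_of_mem (fun i => (x i).den) (Finset.mem_univ i)).trans (dvd_mul_right _ _)) hq
  have h2 := common_den a ha0 q
    (fun i => (Finset.dvd_prod_of_mem (fun i => (a i).den) (Finset.mem_univ i)).trans (dvd_mul_left _ _)) hq
  choose mm hmm using h1
  choose cc hcc using h2
  have hinj' : ∀ i i', mm i = mm i' → cc i = cc i' → i = i' := by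
    intro i j hij hij'
    apply hinj
    · have h1 := hcc i
      rw [hij', hcc j] at h1
      exact_mod_cast h1.symm
    · have h1 := hmm i
      rw [hij, hmm j] at h1
      exact_mod_cast h1.symm
  have hpos' : ∀ i, 1 ≤ mm i := by
    intro i
    by_contra h
    have h0 : mm i = 0 := by omega
    have h1 := hmm i
    rw [h0, Nat.cast_zero, zero_div] at h1
    have : (0 : ℝ) < x i := by exact_mod_cast hpos i
    linarith
  have hcq : ∀ i, cc i < q := by
    intro i
    have h1 := hcc i
    have h3 : ((a i : ℚ) : ℝ) < 1 := by exact_mod_cast ha1 i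
    rw [← h1, div_lt_one hqp] at h3
    exact_mod_cast h3
  have h := EA_algL hp L hL J k mm cc hinj' hpos' hq hcq
  refine indep_of_spanL h (fun o => ?_) le_rfl
  cases o with
  | none =>
    simp only [Option.elim]
    refine of_pow (n := q) (by omega) ?_
    rw [← Real.exp_nat_mul]
    have h1 : (q : ℝ) * (-1 / q) = -1 := by field_simp
    rw [h1, Real.exp_neg]
    refine (clF _).inv_mem (subset_clF _ (Or.inr ⟨none, rfl⟩))
  | some p =>
    simp only [Option.elim]
    rw [hmm p.2, hcc p.2]
    exact subset_clF _ (Or.inr ⟨some p, rfl⟩)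

/-- **Algebraic independence** of `e` and the numbers `E_{a,l+1}(x)`, `0 ≤ a < 1` rational, `x` positive rational -/
theorem EA_alg_QL : AlgebraicIndependent L (fun o : Option PI =>
    o.elim (Real.exp 1) (fun p => EA p.1.2.1 (p.1.1 + 1) p.1.2.2)) := by
  classical
  refine algebraicIndependent_of_finite_type fun t ht => ?_
  let s : Finset (ℕ × ℚ × ℚ) := ht.toFinset.biUnion fun o => o.elim ∅ (fun p => {p.1})
  have hs : ∀ p : PI, some p ∈ t → p.1 ∈ s := by
    intro p hp
    refine Finset.mem_biUnion.2 ⟨some p, ht.mem_toFinset.2 hp, ?_⟩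
    simp
  let J : ℕ := s.sup Prod.fst + 1
  let Y : Finset (ℚ × ℚ) := (s.image Prod.snd).filter (fun y => 0 ≤ y.1 ∧ y.1 < 1 ∧ 0 < y.2)
  have hJ : ∀ p : PI, some p ∈ t → p.1.1 < J := fun p hp =>
    Nat.lt_succ_of_le (Finset.le_sup (f := Prod.fst) (hs p hp))
  have hY : ∀ p : PI, some p ∈ t → p.1.2 ∈ Y := fun p hp =>
    Finset.mem_filter.2 ⟨Finset.mem_image_of_mem _ (hs p hp), p.2⟩
  have hYm : ∀ y : Y, 0 ≤ (y : ℚ × ℚ).1 ∧ (y : ℚ × ℚ).1 < 1 ∧ 0 < (y : ℚ × ℚ).2 := fun y => (Finset.mem_filter.1 y.2).2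
  let e := Fintype.equivFin Y
  have h := EA_alg_finL hp hL J (k := Fintype.card Y) (fun i => (e.symm i : ℚ × ℚ).1) (fun i => (e.symm i : ℚ × ℚ).2) (by
    intro i j h1 h2
    exact e.symm.injective (Subtype.ext (Prod.ext h1 h2))) (fun i => (hYm _).1) (fun i => (hYm _).2.1) (fun i => (hYm _).2.2)
  let f : t → Option (Fin J × Fin (Fintype.card Y)) := fun o =>
    match o with
    | ⟨none, _⟩ => none
    | ⟨some p, hp⟩ => some (⟨p.1.1, hJ p hp⟩, e ⟨p.1.2, hY p hp⟩)
  have hf : Function.Injective f := by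
    rintro ⟨o, ho⟩ ⟨o', ho'⟩ hoo
    cases o with
    | none =>
      cases o' with
      | none => rfl
      | some p' => exact absurd hoo (by simp [f])
    | some p =>
      cases o' with
      | none => exact absurd hoo (by simp [f])
      | some p' =>
        simp only [f, Option.some.injEq, Prod.mk.injEq, Fin.mk.injEq] at hoo
        have h1 := e.injective hoo.2
        simp only [Subtype.mk.injEq] at h1
        have : p = p' := Subtype.ext (Prod.ext hoo.1 h1)
        subst this
        rfl
  have h2 := h.comp f hf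
  convert h2 using 1
  ext ⟨o, ho⟩
  cases o with
  | none => rfl
  | some p => simp [f]


end
section

variable {L : IntermediateField ℚ ℝ} {P : Type*} {Z R : P → ℝ}

lemma AI_finsetL (hAI : AlgebraicIndependent L (fun o : Option P => o.elim (Real.exp 1) Z)) (S : Finset P) :
    AlgebraicIndependent L (fun o : Option S => o.elim (Real.exp 1) (fun p => Z p)) := by
  let f : Option S → Option P := Option.map Subtype.val
  have hf : Function.Injective f := Option.map_injective Subtype.val_injective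
  have h2 := hAI.comp f hf
  convert h2 using 1
  ext o
  cases o <;> simp [f]

theorem count_genericL (hAI : AlgebraicIndependent L (fun o : Option P => o.elim (Real.exp 1) Z)) {κ : Type*} [Fintype κ] (y : κ → ℝ)
    (hZ : ∀ p, ∀ T : Set ℝ, (L : Set ℝ) ∪ ({Real.exp 1} ∪ range y) ⊆ clF T → R p ∈ clF T → Z p ∈ clF T) :
    {i : κ ⊕ P | Sum.elim y R i ∈ clF ((L : Set ℝ) ∪ {Real.exp 1})}.encard ≤ (Fintype.card κ : ℕ∞) := by
  classical
  refine encard_le_of_finset _ _ fun t ht => ?_
  let S : Finset P := t.biUnion fun i => Sum.elim (fun _ => ∅) (fun p => {p}) i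
  have hSm : ∀ p : P, Sum.inr p ∈ t → p ∈ S := fun p hp => Finset.mem_biUnion.2 ⟨_, hp, by simp⟩
  have hAI' := AI_finsetL hAI S
  let emb : κ ⊕ S → κ ⊕ P := Sum.map id Subtype.val
  have hemb : Function.Injective emb := Function.Injective.sumMap Function.injective_id Subtype.val_injective
  let S' : Finset (κ ⊕ S) := t.preimage emb hemb.injOn
  have hS'card : S'.card = t.card := by
    rw [Finset.card_preimage, Finset.filter_true_of_mem]
    intro i hi
    rcases i with i | p
    · exact ⟨Sum.inl i, rfl⟩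
    · exact ⟨Sum.inr ⟨p, hSm p hi⟩, rfl⟩
  have key := count_genL hAI' (y := fun k => Sum.elim y R (emb k)) (a := Real.exp 1) S'
    (fun k hk => ht (Finset.mem_preimage.1 hk)) ?_
  · simp only [Fintype.card_option, Fintype.card_fin, Fintype.card_coe, Fintype.card_sum, hS'card] at key
    omega
  · intro o
    have hsub : (L : Set ℝ) ∪ ({Real.exp 1} ∪ range y) ⊆
        clF ((L : Set ℝ) ∪ ({Real.exp 1} ∪ range fun k => Sum.elim y R (emb k))) := by
      rintro z (hz | hz | ⟨i, rfl⟩)
      · exact subset_clF _ (Or.inl hz)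
      · exact subset_clF _ (Or.inr (Or.inl hz))
      · exact subset_clF _ (Or.inr (Or.inr ⟨Sum.inl i, rfl⟩))
    cases o with
    | none => exact hsub (Or.inr (Or.inl rfl))
    | some p => exact hZ p _ hsub (subset_clF _ (Or.inr (Or.inr ⟨Sum.inr p, rfl⟩)))

theorem trdeg_genericL (hAI : AlgebraicIndependent L (fun o : Option P => o.elim (Real.exp 1) Z)) {κ : Type*} [Fintype κ] (y : κ → ℝ)
    (hZ : ∀ p, ∀ T : Set ℝ, (L : Set ℝ) ∪ ({Real.exp 1} ∪ range y) ⊆ clF T → R p ∈ clF T → Z p ∈ clF T) (S : Finset P) :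
    ((S.card + 1 : ℕ) : Cardinal) ≤ Algebra.trdeg L (IntermediateField.adjoin L
      ({Real.exp 1} ∪ range y ∪ R '' (S : Set P))) := by
  have h2 := trdeg_geL (AI_finsetL hAI S) (A := {Real.exp 1} ∪ range y ∪ R '' (S : Set P)) ?_
  · refine le_trans (le_of_eq ?_) h2
    simp
  · intro o
    have hsub : (L : Set ℝ) ∪ ({Real.exp 1} ∪ range y) ⊆ clF ((L : Set ℝ) ∪ ({Real.exp 1} ∪ range y ∪ R '' (S : Set P))) :=
      (union_subset_union_right _ subset_union_left).trans (subset_clF _)
    cases o with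
    | none => exact hsub (Or.inr (Or.inl rfl))
    | some p => exact hZ p _ hsub (subset_clF _ (Or.inr (Or.inr ⟨p, p.2, rfl⟩)))

theorem AI_genericL (hAI : AlgebraicIndependent L (fun o : Option P => o.elim (Real.exp 1) Z))
    (hZ : ∀ p, ∀ T : Set ℝ, Real.exp 1 ∈ clF T → R p ∈ clF T → Z p ∈ clF T) :
    AlgebraicIndependent L (fun o : Option P => o.elim (Real.exp 1) R) := by
  classical
  refine algebraicIndependent_of_finite_type fun t ht => ?_
  let F : Set (Option P) := insert none t
  have hF : F.Finite := ht.insert _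
  have := hF.fintype
  have key : AlgebraicIndependent L (fun o : F => (o : Option P).elim (Real.exp 1) R) := by
    have hAI' : AlgebraicIndependent L (fun o : F => (o : Option P).elim (Real.exp 1) Z) :=
      hAI.comp Subtype.val Subtype.val_injective
    refine indep_of_spanL hAI' (fun o => ?_) le_rfl
    have he : Real.exp 1 ∈ clF ((L : Set ℝ) ∪ range fun o : F => (o : Option P).elim (Real.exp 1) R) :=
      subset_clF _ (Or.inr ⟨⟨none, Or.inl rfl⟩, rfl⟩)
    obtain ⟨o, ho⟩ := o
    cases o with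
    | none => exact he
    | some p => exact hZ p _ he (subset_clF _ (Or.inr ⟨⟨some p, ho⟩, rfl⟩))
  exact key.comp (fun o : t => (⟨o.1, Or.inr o.2⟩ : F)) (by
    intro a b hab
    have := congrArg Subtype.val hab
    exact Subtype.ext this)

end

section

variable {p : ℕ → ℕ} (hp : ∀ k, 2 ≤ p k) {L : IntermediateField ℚ ℝ} (hL : ∀ x ∈ L, RA p x)

include hp hL

/-- subfamilies -/
lemma AI_subL {P : Type*} (f : P → ℕ × ℚ × ℚ) (hf : Function.Injective f)
    (h : ∀ p, 0 ≤ (f p).2.1 ∧ (f p).2.1 < 1 ∧ 0 < (f p).2.2) :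
    AlgebraicIndependent L (fun o : Option P => o.elim (Real.exp 1) (fun p => EA (f p).2.1 ((f p).1 + 1) (f p).2.2)) := by
  let g : Option P → Option PI := Option.map fun p => ⟨f p, h p⟩
  have hg : Function.Injective g := by
    refine Option.map_injective ?_
    intro p p' h
    simp only [Subtype.mk.injEq] at h
    exact hf h
  have h2 := (EA_alg_QL hp hL).comp g hg
  convert h2 using 1
  ext o
  cases o <;> simp [g]

end

end Pool.Agent.R347.EM.T
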